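import Pool.Agent.Lib_helper71.Mixing.Graph

set_option autoImplicit false

/-!
# MP_fe6464_co, Q1 : the answer is yes

Take `K_{4,4}` minus a perfect matching (the graph of the cube) and add one vertex joined to the
two ends of one edge.  This connected graph on `9` vertices contains a triangle, its mixing
threshold is `5` and its circular mixing threshold is `4`.
-/

namespace Pool.Agent.Results.MP_fe6464_co.CubeExample

open Pool.Agent.Mixing

theorem result : ∃ (V : Type) (_ : Fintype V) (G : SimpleGraph V),
    G.Connected ∧ ¬ G.Colorable 2 ∧ mixThreshold G = 5 ∧ circThreshold G = 4 ∧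
      circThreshold G < (mixThreshold G : ℝ) := by
  refine ⟨Vx, inferInstance, cubeW, cubeW_connected, cubeW_not_colorable, mixThreshold_cubeW,
    circThreshold_cubeW, ?_⟩
  rw [mixThreshold_cubeW, circThreshold_cubeW]
  norm_num

end Pool.Agent.Results.MP_fe6464_co.CubeExample
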